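import Mathlib
import Pool.Agent.V11167.ShDefs
import Pool.Agent.V11167.ShJ

/-!
# Perimeter-to-area ratio of shifted `(k,n)`-setups of regular polygons
-/

namespace Pool.Agent.Results.MP_7297ca_co.ShiftedSetups

open Pool.Agent.V11167.Sh

/-- For coprime `k ≥ 1` and `n ≥ 3`:
* basic `(k,n)`-setups with admissible markings exist;
* for every basic setup and every admissible marking, for all small `ε > 0` the ratio of the union of
  the polygons translated by `ε • A i` is greater than `4 tan (π/n)` if `k > 1` and `k ≡ 1 (mod n)`,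
  smaller than `4 tan (π/n)` if `k > 1` and `k ≢ 1 (mod n)`, and equal to it if `k = 1`;
* hence the ratio of a shifted `(k,n)`-setup exceeds `4 tan (π/n)` if and only if `k > 1` and
  `k ≡ 1 (mod n)`. -/
theorem result (k n : ℕ) (hk : 1 ≤ k) (hn : 3 ≤ n) (hc : Nat.Coprime k n) :
    (∃ (θ : Fin k → ℝ) (A : Fin k → ℂ), IsBasic k n θ ∧ IsMarking k n θ A) ∧
    (∀ (θ : Fin k → ℝ) (A : Fin k → ℂ), IsBasic k n θ → IsMarking k n θ A →
      ∃ ε₀ > 0, ∀ ε : ℝ, 0 < ε → ε < ε₀ →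
        ((1 < k ∧ k ≡ 1 [MOD n]) → 4 * Real.tan (Real.pi / n) < ratio (shifted k n θ A ε)) ∧
        ((1 < k ∧ ¬ k ≡ 1 [MOD n]) → ratio (shifted k n θ A ε) < 4 * Real.tan (Real.pi / n)) ∧
        (k = 1 → ratio (shifted k n θ A ε) = 4 * Real.tan (Real.pi / n))) ∧
    ((∀ (θ : Fin k → ℝ) (A : Fin k → ℂ), IsBasic k n θ → IsMarking k n θ A →
      ∃ ε₀ > 0, ∀ ε : ℝ, 0 < ε → ε < ε₀ →
        4 * Real.tan (Real.pi / n) < ratio (shifted k n θ A ε)) ↔ (1 < k ∧ k ≡ 1 [MOD n])) := by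
  refine ⟨exists_setup hk hn hc, fun θ A hB hM => all_cases hk hn hc hB hM, ?_, ?_⟩
  · intro h
    obtain ⟨θ, A, hB, hM⟩ := exists_setup hk hn hc
    obtain ⟨ε₁, h1, h2⟩ := h θ A hB hM
    obtain ⟨ε₂, h3, h4⟩ := all_cases hk hn hc hB hM
    have h5 : 0 < min ε₁ ε₂ / 2 := by positivity
    have h6 : min ε₁ ε₂ / 2 < ε₁ := by linarith [min_le_left ε₁ ε₂]
    have h7 : min ε₁ ε₂ / 2 < ε₂ := by linarith [min_le_right ε₁ ε₂]
    have h8 := h2 _ h5 h6
    obtain ⟨_, h9, h10⟩ := h4 _ h5 h7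
    by_contra hcon
    rcases hk.eq_or_lt with hk1 | hk1
    · rw [h10 hk1.symm] at h8
      exact lt_irrefl _ h8
    · have h11 : ¬ k ≡ 1 [MOD n] := fun h => hcon ⟨hk1, h⟩
      exact lt_asymm h8 (h9 ⟨hk1, h11⟩)
  · intro h θ A hB hM
    obtain ⟨ε₀, h1, h2⟩ := all_cases hk hn hc hB hM
    exact ⟨ε₀, h1, fun ε h3 h4 => (h2 ε h3 h4).1 h⟩

end Pool.Agent.Results.MP_7297ca_co.ShiftedSetups
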